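import Pool.Agent.H.MP_9991fb_an.C

namespace Pool.Agent.Results.MP_9991fb_an.Yes

theorem result : ∃ (X : Type) (_ : NormedAddCommGroup X) (_ : NormedSpace ℝ X)
    (_ : CompleteSpace X),
    (∀ (T : Type) [NormedAddCommGroup T] [NormedSpace ℝ T] [FiniteDimensional ℝ T]
      (S : Submodule ℝ T) (f : S →ₗᵢ[ℝ] X), ∃ g : T →ₗᵢ[ℝ] X, ∀ s : S, g s = f s) ∧
    ∃ (E F : Submodule ℝ X) (h : E ≃ₗᵢ[ℝ] F), Module.finrank ℝ E = 1 ∧ Module.finrank ℝ F = 1 ∧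
      ¬ ∃ U : X ≃ₗᵢ[ℝ] X, ∀ e : E, U e = h e := by
  obtain ⟨X, i1, i2, i3, h1, h2⟩ := Pool.Agent.H.MP_9991fb_an.main1
  refine ⟨X, i1, i2, i3, fun T _ _ _ S f => ?_, h2⟩
  have := FiniteDimensional.proper_real T
  exact h1 S T f S.subtypeₗᵢ

end Pool.Agent.Results.MP_9991fb_an.Yes
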